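import Pool.Agent.R216.FBEx3

/-!
# A `C¹` free boundary with right-hand side `x₁ χ_D` that is not `C^{1,α}` for any `α > 0`

The plane `ℝ²` is written as `ℂ`, with `x₁ = re`, `x₂ = im`, the Euclidean norm and Lebesgue
measure.  We settle Q1 of MP_056161_an in the negative: (a), hence (b) and (c), fail.

The example is explicit.  With `φ(η) = η (4 - log η)` on the half disc `Re η > 0`, `|η| < 1`, the
imaginary axis `η = i s` is mapped to the curve `x₁ = (π/2)|s|`, `x₂ = s (4 - log |s|)`, which is a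
`C¹` convex curve with a vertical tangent at `0` and which is not `C^{1,α}`; on this curve
`x₁²/2 = -(π²/8) η²`, so that `u = x₁³/6 + Re ∫ (π²/8) η² dz` has vanishing gradient there.
-/

open Set Metric Filter Topology MeasureTheory
open scoped Laplacian ContDiff NNReal

namespace Pool.Agent.Results.MP_056161_an.C1BoundaryNotC1Alpha

/-- The setting of the problem: `D` is a Lipschitz domain (here even the part of the plane to the
right of the graph of a Lipschitz function `f : ℝ → ℝ`), `0 ∈ ∂D`, and `u ∈ C^{1,1}_loc(B₂)`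
satisfies `Δ u = x₁ χ_D` almost everywhere in `B₂` and `u = 0` on `B₂ \ closure D`. -/
structure IsSolution (D : Set ℂ) (u : ℂ → ℝ) : Prop where
  lipschitz_domain : ∃ (f : ℝ → ℝ) (K : ℝ≥0), LipschitzWith K f ∧ D = {z | f z.im < z.re}
  zero_mem_boundary : (0 : ℂ) ∈ frontier D
  differentiable : ∀ z ∈ ball (0 : ℂ) 2, DifferentiableAt ℝ u z
  lipschitz_gradient : ∀ r < 2, ∃ K : ℝ≥0, LipschitzOnWith K (fderiv ℝ u) (closedBall (0 : ℂ) r)
  equation : ∀ᵐ z : ℂ, z ∈ ball (0 : ℂ) 2 → Δ u z = D.indicator (fun w => w.re) z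
  zero_outside : ∀ z ∈ ball (0 : ℂ) 2, z ∉ closure D → u z = 0

/-- `∂D` is of class `P` near `0`: there are `ρ > 0` and a rotation `z ↦ c z`, `|c| = 1`, in which
`∂D ∩ B_ρ` is the graph `{(t, g t) : a < t < b}` of a function `g` of one variable with
`P g (a, b)`. -/
def BoundaryGraphNear (P : (ℝ → ℝ) → Set ℝ → Prop) (D : Set ℂ) : Prop :=
  ∃ ρ > 0, ∃ c : ℂ, ‖c‖ = 1 ∧ ∃ (a b : ℝ) (g : ℝ → ℝ), P g (Ioo a b) ∧
    ∀ z : ℂ, (z ∈ frontier D ∧ ‖z‖ < ρ) ↔ ((c * z).re ∈ Ioo a b ∧ (c * z).im = g (c * z).re)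

/-- `g` is differentiable on `I` and its derivative is `α`-Hölder on every compact interval
contained in `I`. -/
def C1Alpha (α : ℝ) (g : ℝ → ℝ) (I : Set ℝ) : Prop :=
  DifferentiableOn ℝ g I ∧ ∀ s t : ℝ, Icc s t ⊆ I → ∃ C : ℝ, ∀ x ∈ Icc s t, ∀ y ∈ Icc s t,
    |deriv g x - deriv g y| ≤ C * |x - y| ^ α

open Pool.Agent.R216.FB in
lemma zero_mem_frontier : (0 : ℂ) ∈ frontier D := by
  rw [frontier_D]
  show (0:ℂ).re = f (0:ℂ).im
  simp [f_zero]

open Pool.Agent.R216.FB in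
lemma isSolution : IsSolution D u where
  lipschitz_domain := ⟨f, 2/3, lipschitz_f, rfl⟩
  zero_mem_boundary := zero_mem_frontier
  differentiable := fun _ hz => (hasFDerivAt_u hz).differentiableAt
  lipschitz_gradient := fun _ hr => ⟨10, lipschitz_fderiv_u.mono (closedBall_subset_ball hr)⟩
  equation := laplacian_u_ae
  zero_outside := fun _ _ hz => u_eq_zero (fun h => hz (subset_closure h))

open Pool.Agent.R216.FB in
lemma boundary_C1 : BoundaryGraphNear (fun g I => ContDiffOn ℝ 1 g I) D := by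
  have hpos : 0 < f 1 ^ 2 + 1 := by positivity
  refine ⟨Real.sqrt (f 1 ^ 2 + 1), Real.sqrt_pos.mpr hpos, Complex.I, by simp, -1, 1, f,
    contDiffOn_f, fun z => ?_⟩
  have e1 : (Complex.I * z).re = -z.im := by simp
  have e2 : (Complex.I * z).im = z.re := by simp
  rw [e1, e2, f_even, frontier_D]
  have hnorm : ‖z‖ < Real.sqrt (f 1 ^ 2 + 1) ↔ z.re ^ 2 + z.im ^ 2 < f 1 ^ 2 + 1 := by
    rw [Real.lt_sqrt (norm_nonneg _), ← Complex.normSq_eq_norm_sq, Complex.normSq_apply]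
    constructor <;> intro h <;> nlinarith
  rw [hnorm]
  have hmem : -z.im ∈ Ioo (-1:ℝ) 1 ↔ |z.im| < 1 := by
    rw [abs_lt]; constructor
    · rintro ⟨h1, h2⟩; constructor <;> linarith
    · rintro ⟨h1, h2⟩; constructor <;> linarith
  rw [hmem]
  constructor
  · rintro ⟨h1, h2⟩
    have h1' : z.re = f z.im := h1
    refine ⟨?_, h1'⟩
    by_contra h3
    push Not at h3
    have h4 : f 1 ≤ f z.im := f_mono (by rw [abs_one]; exact h3)
    have h5 : 1 ≤ z.im ^ 2 := by rw [← sq_abs]; nlinarith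
    rw [h1'] at h2
    nlinarith [f_nonneg 1, f_nonneg z.im]
  · rintro ⟨h1, h2⟩
    refine ⟨h2, ?_⟩
    have h4 : f z.im ≤ f 1 := f_mono (by rw [abs_one]; exact h1.le)
    have h5 : z.im ^ 2 < 1 := by rw [← sq_abs]; nlinarith [abs_nonneg z.im]
    rw [h2]
    nlinarith [f_nonneg 1, f_nonneg z.im]

lemma taylor {α : ℝ} (hα : 0 < α) {g : ℝ → ℝ} {δ C : ℝ}
    (hd : ∀ x ∈ Icc (-δ) δ, DifferentiableAt ℝ g x)
    (hC : ∀ x ∈ Icc (-δ) δ, ∀ y ∈ Icc (-δ) δ, |deriv g x - deriv g y| ≤ C * |x - y| ^ α)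
    (h0 : g 0 = 0) {τ : ℝ} (hτ : |τ| ≤ δ) :
    |g τ - deriv g 0 * τ| ≤ |C| * |τ| ^ (1 + α) := by
  have hδ : 0 ≤ δ := (abs_nonneg τ).trans hτ
  have hsub : uIcc 0 τ ⊆ Icc (-δ) δ := by
    intro x hx
    have h1 := abs_le.mp hτ
    rcases le_total 0 τ with h | h
    · rw [uIcc_of_le h] at hx
      exact ⟨by linarith [hx.1], by linarith [hx.2]⟩
    · rw [uIcc_of_ge h] at hx
      exact ⟨by linarith [hx.1], by linarith [hx.2]⟩
  have habs : ∀ x ∈ uIcc 0 τ, |x| ≤ |τ| := by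
    intro x hx
    rcases le_total 0 τ with h | h
    · rw [uIcc_of_le h] at hx
      rw [abs_of_nonneg hx.1, abs_of_nonneg h]; exact hx.2
    · rw [uIcc_of_ge h] at hx
      rw [abs_of_nonpos hx.2, abs_of_nonpos h]; linarith [hx.1]
  have key := Convex.norm_image_sub_le_of_norm_hasDerivWithin_le
    (f := fun x => g x - deriv g 0 * x) (f' := fun x => deriv g x - deriv g 0)
    (C := |C| * |τ| ^ α) (s := uIcc 0 τ) (x := 0) (y := τ)
    (fun x hx => by
      have h1 := (hd x (hsub hx)).hasDerivAt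
      have h2 := h1.sub ((hasDerivAt_id x).const_mul (deriv g 0))
      simp only [mul_one] at h2
      exact h2.hasDerivWithinAt)
    (fun x hx => by
      have h1 := hC x (hsub hx) 0 ⟨by linarith, hδ⟩
      rw [sub_zero] at h1
      rw [Real.norm_eq_abs]
      refine h1.trans ?_
      have h2 : C ≤ |C| := le_abs_self C
      have h3 : |x| ^ α ≤ |τ| ^ α := Real.rpow_le_rpow (abs_nonneg _) (habs x hx) hα.le
      have h4 : 0 ≤ |x| ^ α := Real.rpow_nonneg (abs_nonneg _) _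
      nlinarith [abs_nonneg C])
    (convex_uIcc 0 τ) left_mem_uIcc right_mem_uIcc
  simp only [h0, mul_zero, sub_zero, Real.norm_eq_abs] at key
  refine key.trans (le_of_eq ?_)
  rcases (abs_nonneg τ).eq_or_lt with h | h
  · rw [← h, Real.zero_rpow (by linarith : 1 + α ≠ 0)]; simp
  · rw [Real.rpow_add h, Real.rpow_one]; ring

open Pool.Agent.R216.FB in
lemma not_C1Alpha {α : ℝ} (hα : 0 < α) : ¬ BoundaryGraphNear (C1Alpha α) D := by
  rintro ⟨ρ, hρ, c, hc, a, b, g, ⟨hdiff, hhol⟩, hgr⟩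
  have h0 := (hgr 0).1 ⟨zero_mem_frontier, by simpa using hρ⟩
  simp only [mul_zero, Complex.zero_re, Complex.zero_im] at h0
  obtain ⟨⟨ha, hb⟩, h0g⟩ := h0
  obtain ⟨δ, hδ, hδa, hδb⟩ : ∃ δ : ℝ, 0 < δ ∧ a < -δ ∧ δ < b := by
    refine ⟨min (-a) b / 2, ?_, ?_, ?_⟩
    · have : 0 < min (-a) b := lt_min (by linarith) hb
      linarith
    · have := min_le_left (-a) b
      linarith
    · have := min_le_right (-a) b
      linarith
  have hsub : Icc (-δ) δ ⊆ Ioo a b := fun x hx => ⟨by linarith [hx.1], by linarith [hx.2]⟩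
  obtain ⟨C, hC⟩ := hhol (-δ) δ hsub
  have hd : ∀ x ∈ Icc (-δ) δ, DifferentiableAt ℝ g x := fun x hx =>
    (hdiff x (hsub hx)).differentiableAt (isOpen_Ioo.mem_nhds (hsub hx))
  set m := deriv g 0 with hm
  set ℓ : ℝ → ℝ := fun s => 4 - Real.log s with hℓ
  set B := c.re + m * c.im with hB
  set A := (c.im - m * c.re) * (Real.pi / 2) with hA
  set β := α / (1 + α) with hβ
  have hβ0 : 0 < β := by positivity
  have hGt : Tendsto G (𝓝[>] 0) (𝓝 0) := by
    have := continuous_G.tendsto 0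
    rw [G_zero] at this
    exact this.mono_left nhdsWithin_le_nhds
  have hev : ∀ᶠ s in 𝓝[>] (0:ℝ), |B * ℓ s + A| ≤ |C| * 2 ^ (1 + α) * (s ^ β * ℓ s) ^ (1 + α) := by
    have e1 : ∀ᶠ s in 𝓝[>] (0:ℝ), G s < min (min ρ δ) 2 / 2 :=
      hGt.eventually_lt_const (by positivity)
    have e2 : ∀ᶠ s in 𝓝[>] (0:ℝ), s < 1 := by
      apply eventually_nhdsWithin_of_eventually_nhds
      exact eventually_lt_nhds one_pos
    filter_upwards [e1, e2, self_mem_nhdsWithin] with s h1 h2 h3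
    have hs : 0 < s := h3
    have hmin1 : min (min ρ δ) 2 ≤ ρ := (min_le_left _ _).trans (min_le_left _ _)
    have hmin2 : min (min ρ δ) 2 ≤ δ := (min_le_left _ _).trans (min_le_right _ _)
    have hmin3 : min (min ρ δ) 2 ≤ 2 := min_le_right _ _
    have hlog : Real.log s < 0 := Real.log_neg hs h2
    have hGs : G s = s * ℓ s := by simp only [G, hℓ, abs_of_pos hs]
    have hℓs : 4 < ℓ s := by simp only [hℓ]; linarith
    have hG4 : 4 * s ≤ G s := by rw [hGs]; nlinarith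
    have hGpos : 0 < G s := by linarith
    set z : ℂ := ((Real.pi / 2 * s : ℝ) : ℂ) + ((G s : ℝ) : ℂ) * Complex.I with hz
    have hzre : z.re = Real.pi / 2 * s := by simp [hz]
    have hzim : z.im = G s := by simp [hz]
    have hzf : z ∈ frontier D := by
      rw [frontier_D]
      show z.re = f z.im
      rw [hzre, hzim, f_of_abs (by rw [abs_of_pos hGpos]; linarith),
        ginv_G (by rw [abs_of_pos hs]; exact h2.le) (by rw [abs_of_pos hGpos]; linarith),
        abs_of_pos hs]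
    have hpi : Real.pi / 2 * s ≤ G s := by
      nlinarith [Real.pi_le_four]
    have hzn : ‖z‖ ≤ 2 * G s := by
      refine (Complex.norm_le_abs_re_add_abs_im z).trans ?_
      rw [hzre, hzim, abs_of_pos hGpos, abs_of_pos (by positivity)]
      linarith
    have hcz : ‖c * z‖ ≤ 2 * G s := by rw [norm_mul, hc, one_mul]; exact hzn
    obtain ⟨_, hz2⟩ := (hgr z).1 ⟨hzf, by linarith⟩
    have hre : |(c * z).re| ≤ 2 * G s := (Complex.abs_re_le_norm _).trans hcz
    have ht := taylor hα hd hC h0g.symm (τ := (c * z).re) (by linarith)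
    rw [← hz2] at ht
    have e3 : (c * z).im - m * (c * z).re = s * (B * ℓ s + A) := by
      rw [Complex.mul_im, Complex.mul_re, hzre, hzim, hGs, hB, hA]; ring
    rw [← hm, e3, abs_mul, abs_of_pos hs] at ht
    have h5 : |(c * z).re| ^ (1 + α) ≤ (2 * G s) ^ (1 + α) :=
      Real.rpow_le_rpow (abs_nonneg _) hre (by linarith)
    have h6 : (2 * G s) ^ (1 + α) = s * (2 ^ (1 + α) * (s ^ β * ℓ s) ^ (1 + α)) := by
      rw [Real.mul_rpow (by norm_num) hGpos.le, hGs, Real.mul_rpow hs.le (by linarith),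
        Real.mul_rpow (Real.rpow_nonneg hs.le _) (by linarith), ← Real.rpow_mul hs.le,
        show β * (1 + α) = α by rw [hβ]; field_simp, Real.rpow_add hs, Real.rpow_one]
      ring
    have h7 : s * |B * ℓ s + A| ≤ s * (|C| * 2 ^ (1 + α) * (s ^ β * ℓ s) ^ (1 + α)) := by
      calc s * |B * ℓ s + A| ≤ |C| * |(c * z).re| ^ (1 + α) := ht
        _ ≤ |C| * (2 * G s) ^ (1 + α) := by gcongr
        _ = s * (|C| * 2 ^ (1 + α) * (s ^ β * ℓ s) ^ (1 + α)) := by rw [h6]; ring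
    exact le_of_mul_le_mul_left h7 hs
  have hlim0 : Tendsto (fun s : ℝ => s ^ β * ℓ s) (𝓝[>] 0) (𝓝 0) := by
    have h1 := tendsto_log_mul_rpow_nhdsGT_zero hβ0
    have h2 : Tendsto (fun s : ℝ => s ^ β) (𝓝[>] 0) (𝓝 0) := by
      have := (Real.continuousAt_rpow_const 0 β (Or.inr hβ0.le)).tendsto
      rw [Real.zero_rpow hβ0.ne'] at this
      exact this.mono_left nhdsWithin_le_nhds
    have h3 := (h2.mul_const 4).sub h1
    simp only [zero_mul, sub_zero] at h3
    refine h3.congr (fun s => ?_)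
    simp only [hℓ]; ring
  have hlim1 : Tendsto (fun s : ℝ => |C| * 2 ^ (1 + α) * (s ^ β * ℓ s) ^ (1 + α)) (𝓝[>] 0) (𝓝 0) := by
    have h1 := (hlim0.rpow_const (p := 1 + α) (Or.inr (by linarith))).const_mul (|C| * 2 ^ (1 + α))
    rw [Real.zero_rpow (by linarith), mul_zero] at h1
    exact h1
  have hlim2 : Tendsto (fun s : ℝ => B * ℓ s + A) (𝓝[>] 0) (𝓝 0) :=
    squeeze_zero_norm' (by simpa only [Real.norm_eq_abs] using hev) hlim1
  have hℓtop : Tendsto ℓ (𝓝[>] 0) atTop := by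
    have h2 := tendsto_neg_atBot_atTop.comp Real.tendsto_log_nhdsGT_zero
    exact tendsto_atTop_add_const_left _ 4 h2
  have hℓinv : Tendsto (fun s => (ℓ s)⁻¹) (𝓝[>] 0) (𝓝 0) := hℓtop.inv_tendsto_atTop
  have hBzero : B = 0 := by
    have h1 := hlim2.mul hℓinv
    rw [mul_zero] at h1
    have h2 : Tendsto (fun s : ℝ => B + A * (ℓ s)⁻¹) (𝓝[>] 0) (𝓝 (B + A * 0)) :=
      tendsto_const_nhds.add (hℓinv.const_mul A)
    have h3 : Tendsto (fun s : ℝ => B + A * (ℓ s)⁻¹) (𝓝[>] 0) (𝓝 0) := by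
      refine h1.congr' ?_
      filter_upwards [hℓtop.eventually_gt_atTop 0] with s hs
      field_simp
    have := tendsto_nhds_unique h2 h3
    simpa using this
  have hAzero : A = 0 := by
    rw [hBzero] at hlim2
    simp only [zero_mul, zero_add] at hlim2
    exact tendsto_nhds_unique tendsto_const_nhds hlim2
  have hA' : c.im - m * c.re = 0 := by
    rcases mul_eq_zero.mp hAzero with h | h
    · exact h
    · exfalso; linarith [Real.pi_pos]
  have hn : c.re ^ 2 + c.im ^ 2 = 1 := by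
    have h1 : ‖c‖ ^ 2 = 1 := by rw [hc]; norm_num
    rw [← Complex.normSq_eq_norm_sq, Complex.normSq_apply] at h1
    linarith
  have hre : c.re * (1 + m ^ 2) = 0 := by
    have : c.im = m * c.re := by linarith
    rw [hB, this] at hBzero
    linarith
  have hre0 : c.re = 0 := by
    rcases mul_eq_zero.mp hre with h | h
    · exact h
    · exfalso; nlinarith [sq_nonneg m]
  have him0 : c.im = 0 := by rw [hre0] at hA'; linarith
  rw [hre0, him0] at hn
  norm_num at hn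

lemma C1Alpha_one_of_contDiffOn {g : ℝ → ℝ} {a b : ℝ} (h : ContDiffOn ℝ 2 g (Ioo a b)) :
    C1Alpha 1 g (Ioo a b) := by
  have h1 := h
  rw [show (2 : WithTop ℕ∞) = 1 + 1 from rfl,
    contDiffOn_succ_iff_deriv_of_isOpen isOpen_Ioo] at h1
  refine ⟨h1.1, fun s t hst => ?_⟩
  have h2 := h1.2.2
  rw [show (1 : WithTop ℕ∞) = 0 + 1 from rfl,
    contDiffOn_succ_iff_deriv_of_isOpen isOpen_Ioo, contDiffOn_zero] at h2
  obtain ⟨M, hM⟩ := (isCompact_Icc (a := s) (b := t)).exists_bound_of_continuousOn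
    (h2.2.2.mono hst)
  refine ⟨M, fun x hx y hy => ?_⟩
  rw [Real.rpow_one]
  have := Convex.norm_image_sub_le_of_norm_deriv_le (f := deriv g) (C := M) (s := Icc s t)
    (x := y) (y := x)
    (fun z hz => (h2.1 z (hst hz)).differentiableAt (isOpen_Ioo.mem_nhds (hst hz)))
    hM (convex_Icc s t) hy hx
  simpa only [Real.norm_eq_abs] using this

/-- **Negative answer to Q1 (a), (b), (c).** -/
theorem result : ∃ (D : Set ℂ) (u : ℂ → ℝ), IsSolution D u ∧
    BoundaryGraphNear (fun g I => ContDiffOn ℝ 1 g I) D ∧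
    (∀ α : ℝ, 0 < α → ¬ BoundaryGraphNear (C1Alpha α) D) ∧
    ¬ BoundaryGraphNear (fun g I => ContDiffOn ℝ ∞ g I) D ∧
    ¬ BoundaryGraphNear (fun g I => AnalyticOnNhd ℝ g I) D := by
  have hsm : ¬ BoundaryGraphNear (fun g I => ContDiffOn ℝ ∞ g I) Pool.Agent.R216.FB.D := by
    rintro ⟨ρ, hρ, c, hc, a, b, g, hg, hgr⟩
    exact not_C1Alpha one_pos ⟨ρ, hρ, c, hc, a, b, g,
      C1Alpha_one_of_contDiffOn (hg.of_le ENat.LEInfty.out), hgr⟩
  refine ⟨Pool.Agent.R216.FB.D, Pool.Agent.R216.FB.u, isSolution, boundary_C1,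
    fun α hα => not_C1Alpha hα, hsm, ?_⟩
  rintro ⟨ρ, hρ, c, hc, a, b, g, hg, hgr⟩
  exact hsm ⟨ρ, hρ, c, hc, a, b, g, hg.contDiffOn (uniqueDiffOn_Ioo a b), hgr⟩

end Pool.Agent.Results.MP_056161_an.C1BoundaryNotC1Alpha
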